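import Pool.Agent.Lib.MP_0f87c6_ag.Gal
import Pool.Agent.Lib.MP_0f87c6_ag.Ex

set_option autoImplicit false

open MvPolynomial

namespace Pool.Agent.Results.MP_0f87c6_ag.CharTwo

/-- `A` is a discrete torsion `G`-module: discrete topology, every element has finite order and an
open stabilizer. -/
def IsDiscreteTorsion {G : Type} [Group G] [TopologicalSpace G] (A : TopRep.{0} ℤ G) : Prop :=
  DiscreteTopology A ∧ IsAddTorsion A ∧ ∀ a : A, IsOpen {g : G | A.ρ g a = a}

/-- The cohomological dimension of the absolute Galois group of `k` is `m`: `m` is least such that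
the continuous cohomology of every discrete torsion module vanishes in all degrees above `m`. -/
def HasCd (k : Type) [Field k] (m : ℕ) : Prop :=
  IsLeast {n : ℕ | ∀ i, n < i → ∀ A : TopRep.{0} ℤ (SeparableClosure k ≃ₐ[k] SeparableClosure k),
    IsDiscreteTorsion A → Subsingleton (continuousCohomology i A)} m

/-- Jacobian criterion: at every geometric point of `f = g = 0` in projective space the gradients
of `f` and `g` are linearly independent. -/
def IsSmoothPair {k : Type} [Field k] {n : ℕ} (f g : MvPolynomial (Fin n) k) : Prop :=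
  ∀ x : Fin n → AlgebraicClosure k, x ≠ 0 → aeval x f = 0 → aeval x g = 0 →
    LinearIndependent (AlgebraicClosure k)
      ![fun i => aeval x (pderiv i f), fun i => aeval x (pderiv i g)]

open Pool.Agent.Lib.MP_0f87c6_ag in
theorem result : ∃ (k : Type) (_ : Field k), CharP k 2 ∧ HasCd k 1 ∧
    ∃ f g : MvPolynomial (Fin 6) k, f.IsHomogeneous 2 ∧ g.IsHomogeneous 2 ∧ IsSmoothPair f g ∧
      ∀ x : Fin 6 → k, eval x f = 0 → eval x g = 0 → x = 0 := by
  obtain ⟨k, _, hc, s, t, h1, h2⟩ := exists_field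
  have two : (2 : k) = 0 := CharTwo.two_eq_zero
  have hn : ∀ x : Fin 6 → k, ∀ i, x i = 1 → Qf (n6 s t) x ≠ 0 := fun x i hi e =>
    one_ne_zero (hi ▸ congrFun (h1 x e) i)
  refine ⟨k, inferInstance, hc, ⟨fun i hi A hA => ?_, fun n hn' => ?_⟩,
    X 0 * X 0 + X 0 * X 1 + X 1 * X 1 + C s * (X 2 * X 2 + X 2 * X 3 + X 3 * X 3) +
      C t * (X 4 * X 4 + X 4 * X 5 + X 5 * X 5), X 0 * X 1 + X 2 * X 3 + X 4 * X 5, ?_, ?_, ?_,
    fun x hx _ => h1 x (by rw [Qf_n6, ← hx]; simp; ring)⟩
  · obtain ⟨j, rfl⟩ : ∃ j, i = j + 1 + 1 := ⟨i - 2, by omega⟩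
    exact (van_iff A _).2 (van_torsion (p2_gal h2) (van_T2 j) ⟨hA.1, hA.2.2⟩ hA.2.1)
  · by_contra h0
    refine not_van_T2 (k := k) (K := SeparableClosure k)
      (fun x hx => hn ![x, 1, 0, 0, 0, 0] 1 rfl (by rw [Qf_n6]; simpa using hx))
      ((van_iff _ 0).1 (hn' 1 (by omega) _ ⟨sm_T2.disc, ?_, sm_T2.opn⟩))
    exact isAddTorsion_of_finite (G := ZMod 2)
  · have h : ∀ i j : Fin 6, (X i * X j : MvPolynomial (Fin 6) k).IsHomogeneous 2 := fun i j =>
      (isHomogeneous_X k i).mul (isHomogeneous_X k j)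
    exact ((((h _ _).add (h _ _)).add (h _ _)).add
      ((((h _ _).add (h _ _)).add (h _ _)).C_mul s)).add
      ((((h _ _).add (h _ _)).add (h _ _)).C_mul t)
  · have h : ∀ i j : Fin 6, (X i * X j : MvPolynomial (Fin 6) k).IsHomogeneous 2 := fun i j =>
      (isHomogeneous_X k i).mul (isHomogeneous_X k j)
    exact ((h _ _).add (h _ _)).add (h _ _)
  · intro x hx hf hg
    have inj := (algebraMap k (AlgebraicClosure k)).injective
    have two' : (2 : AlgebraicClosure k) = 0 := by
      rw [← map_ofNat (algebraMap k (AlgebraicClosure k)) 2, two, map_zero]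
    have hs : s ≠ 0 := fun e => hn ![0, 0, 1, 0, 0, 0] 2 rfl (by rw [Qf_n6]; simp [e])
    have ht : t ≠ 0 := fun e => hn ![0, 0, 0, 0, 1, 0] 4 rfl (by rw [Qf_n6]; simp [e])
    have hs1 : s ≠ 1 := fun e => hn ![1, 0, 1, 0, 0, 0] 0 rfl (by
      rw [Qf_n6]; simp [e]; linear_combination two)
    have ht1 : t ≠ 1 := fun e => hn ![1, 0, 0, 0, 1, 0] 0 rfl (by
      rw [Qf_n6]; simp [e]; linear_combination two)
    have hst : s ≠ t := fun e => hn ![0, 0, 1, 0, 1, 0] 2 rfl (by
      rw [Qf_n6]; simp [e]; linear_combination t * two)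
    rw [LinearIndependent.pair_iff]
    intro a b hab
    have e0 := congrFun hab 0
    have e1 := congrFun hab 1
    have e2 := congrFun hab 2
    have e3 := congrFun hab 3
    have e4 := congrFun hab 4
    have e5 := congrFun hab 5
    simp [pderiv_X] at e0 e1 e2 e3 e4 e5
    refine smooth_aux (s := algebraMap k _ s) (t := algebraMap k _ t)
      ((map_ne_zero_iff _ inj).2 hs) ((map_ne_zero_iff _ inj).2 ht)
      ((map_ne_one_iff _ inj).2 hs1) ((map_ne_one_iff _ inj).2 ht1) (inj.ne hst) hx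
      (by rw [Qf_n6, ← hf]; simp; ring) (by simpa using hg) ?_ ?_ ?_ ?_ ?_ ?_
    · linear_combination e1 - a * x 1 * two'
    · linear_combination e0 - a * x 0 * two'
    · linear_combination e3 - a * algebraMap k _ s * x 3 * two'
    · linear_combination e2 - a * algebraMap k _ s * x 2 * two'
    · linear_combination e5 - a * algebraMap k _ t * x 5 * two'
    · linear_combination e4 - a * algebraMap k _ t * x 4 * two'

end Pool.Agent.Results.MP_0f87c6_ag.CharTwo
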